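import Mathlib
import Pool.Agent.Helper66.DS.Defs

/-! Module Err of MP_d684b1_an. -/

set_option autoImplicit false

namespace Pool.Agent.Helper66.DS

open MeasureTheory Set

namespace Err

variable {Ω : Type} [MeasurableSpace Ω] {μ : Measure Ω} [IsFiniteMeasure μ] {a : Ω → ℝ}

theorem integ (ha : Measurable a) (h1 : ∀ x, |a x| ≤ 1) : Integrable a μ :=
  Integrable.of_bound ha.aestronglyMeasurable 1 (Filter.Eventually.of_forall h1)

theorem integ_abs (ha : Measurable a) (h1 : ∀ x, |a x| ≤ 1) : Integrable (fun x => |a x|) μ :=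
  (integ ha h1).abs

/-- the integral of `a` over a cell where `a` has constant sign -/
theorem abs_int {A : Set Ω} (hA : MeasurableSet A)
    (hs : (∀ x ∈ A, 0 ≤ a x) ∨ ∀ x ∈ A, a x ≤ 0) :
    |∫ x in A, a x ∂μ| = ∫ x in A, |a x| ∂μ := by
  rcases hs with h | h
  · rw [abs_of_nonneg (setIntegral_nonneg hA h)]
    exact setIntegral_congr_fun hA fun x hx => (abs_of_nonneg (h x hx)).symm
  · rw [abs_of_nonpos (setIntegral_nonpos hA h), ← integral_neg]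
    exact setIntegral_congr_fun hA fun x hx => (abs_of_nonpos (h x hx)).symm

variable {A D : Set Ω} {κ : ℝ}

theorem term_nonneg (hκ : 0 < κ) : 0 ≤ (μ.real (A ∩ D) / κ) * |∫ x in A, a x ∂μ| :=
  mul_nonneg (div_nonneg measureReal_nonneg hκ.le) (abs_nonneg _)

theorem cell_empty (hκ : 0 < κ) (h : A ∩ D = ∅) :
    ∫ x in A ∩ D, |a x| ∂μ ≤ (μ.real (A ∩ D) / κ) * |∫ x in A, a x ∂μ| := by
  have h1 := term_nonneg (μ := μ) (a := a) (A := A) (D := D) hκ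
  rw [h] at h1 ⊢
  rw [setIntegral_empty]
  exact h1

theorem cell_sub (hA : MeasurableSet A) (hκ : 0 < κ) (hμ : μ.real A = κ) (h : A ⊆ D)
    (hs : (∀ x ∈ A, 0 ≤ a x) ∨ ∀ x ∈ A, a x ≤ 0) :
    ∫ x in A ∩ D, |a x| ∂μ ≤ (μ.real (A ∩ D) / κ) * |∫ x in A, a x ∂μ| := by
  rw [inter_eq_left.2 h, hμ, div_self hκ.ne', one_mul, abs_int hA hs]

theorem cell_small (hD : MeasurableSet D) (hA : MeasurableSet A) (ha : Measurable a)
    (h1 : ∀ x, |a x| ≤ 1) (hκ : 0 < κ) (hμ : μ.real A = κ) {h : ℝ} (hh : 0 ≤ h)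
    (hs : ∀ x ∈ A, |a x| ≤ h) :
    ∫ x in A ∩ D, |a x| ∂μ ≤ (μ.real (A ∩ D) / κ) * |∫ x in A, a x ∂μ| + κ * h := by
  have h2 : ∫ x in A ∩ D, |a x| ∂μ ≤ ∫ _x in A ∩ D, h ∂μ :=
    setIntegral_mono_on (integ_abs ha h1).integrableOn (integrable_const h).integrableOn
      (hA.inter hD) fun x hx => hs x hx.1
  rw [setIntegral_const, smul_eq_mul] at h2
  have h3 : μ.real (A ∩ D) ≤ κ := by
    rw [← hμ]
    exact measureReal_mono inter_subset_left
  have h4 := term_nonneg (μ := μ) (a := a) (A := A) (D := D) hκ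
  have h5 : μ.real (A ∩ D) * h ≤ κ * h := mul_le_mul_of_nonneg_right h3 hh
  linarith

theorem cell_osc (hD : MeasurableSet D) (hA : MeasurableSet A) (ha : Measurable a)
    (h1 : ∀ x, |a x| ≤ 1) (hκ : 0 < κ) (hμ : μ.real A = κ) {ω : ℝ} (hω : 0 ≤ ω)
    (ho : ∀ x ∈ A, ∀ y ∈ A, |a x| - |a y| ≤ ω)
    (hs : (∀ x ∈ A, 0 ≤ a x) ∨ ∀ x ∈ A, a x ≤ 0) :
    ∫ x in A ∩ D, |a x| ∂μ ≤ (μ.real (A ∩ D) / κ) * |∫ x in A, a x ∂μ| + κ * ω := by
  rw [abs_int hA hs]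
  set s := ∫ x in A, |a x| ∂μ with hs'
  have h2 : ∀ x ∈ A, |a x| ≤ s / κ + ω := by
    intro x hx
    have h3 : ∫ _y in A, (|a x| - ω) ∂μ ≤ s :=
      setIntegral_mono_on (integrable_const _).integrableOn (integ_abs ha h1).integrableOn hA
        fun y hy => by linarith [ho x hx y hy]
    rw [setIntegral_const, smul_eq_mul, hμ] at h3
    have h4 : |a x| - ω ≤ s / κ := by
      rw [le_div_iff₀ hκ, mul_comm]
      exact h3
    linarith
  have h3 : ∫ x in A ∩ D, |a x| ∂μ ≤ ∫ _x in A ∩ D, (s / κ + ω) ∂μ :=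
    setIntegral_mono_on (integ_abs ha h1).integrableOn (integrable_const _).integrableOn
      (hA.inter hD) fun x hx => h2 x hx.1
  rw [setIntegral_const, smul_eq_mul] at h3
  have h4 : μ.real (A ∩ D) ≤ κ := by
    rw [← hμ]
    exact measureReal_mono inter_subset_left
  have h5 : μ.real (A ∩ D) * ω ≤ κ * ω := mul_le_mul_of_nonneg_right h4 hω
  have h6 : μ.real (A ∩ D) * (s / κ + ω) = μ.real (A ∩ D) / κ * s + μ.real (A ∩ D) * ω := by
    ring
  linarith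

theorem count {N : ℕ} {A : Fin N → Set Ω} (hA : ∀ i, MeasurableSet (A i))
    (hd : ∀ i j, i ≠ j → Disjoint (A i) (A j)) (hμ : ∀ i, μ.real (A i) = κ)
    (B : Finset (Fin N)) {X : Set Ω} (hB : ∀ i ∈ B, A i ⊆ X) : (B.card : ℝ) * κ ≤ μ.real X := by
  have h1 : μ.real (⋃ i ∈ B, A i) = ∑ i ∈ B, μ.real (A i) :=
    measureReal_biUnion_finset (fun i _ j _ hij => hd i j hij) fun i _ => hA i
  rw [Finset.sum_congr rfl fun i _ => hμ i, Finset.sum_const, nsmul_eq_mul] at h1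
  rw [← h1]
  exact measureReal_mono (iUnion₂_subset hB)

theorem split {N : ℕ} {A : Fin N → Set Ω} (hA : ∀ i, MeasurableSet (A i))
    (hd : ∀ i j, i ≠ j → Disjoint (A i) (A j)) (hμ : ∀ i, μ.real (A i) = κ)
    (hN : κ * N = μ.real univ) (hD : MeasurableSet D) (ha : Measurable a)
    (h1 : ∀ x, |a x| ≤ 1) : ∫ x in D, |a x| ∂μ = ∑ i, ∫ x in A i ∩ D, |a x| ∂μ := by
  set U := ⋃ i, A i with hU
  have hUm : MeasurableSet U := MeasurableSet.iUnion hA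
  have h2 : μ.real U = μ.real univ := by
    have h3 : μ.real (⋃ i ∈ (Finset.univ : Finset (Fin N)), A i) = ∑ i, μ.real (A i) :=
      measureReal_biUnion_finset (fun i _ j _ hij => hd i j hij) fun i _ => hA i
    rw [Finset.sum_congr rfl fun i _ => hμ i, Finset.sum_const, nsmul_eq_mul, Finset.card_univ,
      Fintype.card_fin] at h3
    rw [← hN, mul_comm, ← h3, hU]
    simp
  have h3 : μ Uᶜ = 0 := by
    have h4 : μ.real Uᶜ = 0 := by
      have h5 := measureReal_compl (μ := μ) hUm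
      rw [h5, h2, sub_self]
    exact (measureReal_eq_zero_iff).1 h4
  have h4 : ∫ x in D, |a x| ∂μ = ∫ x in ⋃ i, (A i ∩ D), |a x| ∂μ := by
    refine setIntegral_congr_set ?_
    rw [← iUnion_inter, ← hU]
    refine (inter_ae_eq_right_of_ae_eq_univ ?_).symm
    rw [ae_eq_univ]
    exact h3
  rw [h4, integral_iUnion_fintype (fun i => (hA i).inter hD) (fun i j hij =>
    (hd i j hij).mono inter_subset_left inter_subset_left)
    fun i => (integ_abs ha h1).integrableOn]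

theorem cells_sum {N : ℕ} {A : Fin N → Set Ω} (hA : ∀ i, MeasurableSet (A i))
    (hd : ∀ i j, i ≠ j → Disjoint (A i) (A j)) (hμ : ∀ i, μ.real (A i) = κ)
    (hN : κ * N = μ.real univ) (hD : MeasurableSet D) (ha : Measurable a)
    (h1 : ∀ x, |a x| ≤ 1) (B S : Finset (Fin N)) (ω h : ℝ)
    (he : ∀ i, ∫ x in A i ∩ D, |a x| ∂μ ≤ (μ.real (A i ∩ D) / κ) * |∫ x in A i, a x ∂μ| +
      ((if i ∈ B then κ * ω else 0) + (if i ∈ S then κ * h else 0))) :
    ∫ x in D, |a x| ∂μ ≤ ∑ i, (μ.real (A i ∩ D) / κ) * |∫ x in A i, a x ∂μ| +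
      ((B.card : ℝ) * κ * ω + (S.card : ℝ) * κ * h) := by
  rw [split hA hd hμ hN hD ha h1]
  refine (Finset.sum_le_sum fun i _ => he i).trans (le_of_eq ?_)
  rw [Finset.sum_add_distrib, Finset.sum_add_distrib, Finset.sum_ite_mem, Finset.sum_ite_mem,
    Finset.univ_inter, Finset.univ_inter, Finset.sum_const, Finset.sum_const, nsmul_eq_mul,
    nsmul_eq_mul]
  ring

/-- a cell on which `a` changes sign -/
theorem small_of_sign {A : Set Ω} {h : ℝ} (ho : ∀ x ∈ A, ∀ y ∈ A, |a x - a y| ≤ h)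
    (hs : ¬ ((∀ x ∈ A, 0 ≤ a x) ∨ ∀ x ∈ A, a x ≤ 0)) : ∀ z ∈ A, |a z| ≤ h := by
  rw [not_or] at hs
  obtain ⟨h1, h2⟩ := hs
  push Not at h1 h2
  obtain ⟨x, hx, hx'⟩ := h1
  obtain ⟨y, hy, hy'⟩ := h2
  intro z hz
  have e1 := abs_le.1 (ho z hz x hx)
  have e2 := abs_le.1 (ho z hz y hy)
  rw [abs_le]
  constructor <;> linarith

/-- the oscillation of `|a|` where `|a|` is large -/
theorem osc_of_q {u v ρ h : ℝ} (hu : 1 / 4 ≤ |u|) (hv : 1 / 4 ≤ |v|) (hu1 : |u| ≤ 1)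
    (hv1 : |v| ≤ 1) (hρ : 0 ≤ ρ) (hh : 0 ≤ h)
    (h1 : |Real.sqrt (1 - u ^ 2) - ρ| ≤ h) (h2 : |Real.sqrt (1 - v ^ 2) - ρ| ≤ h)
    (h3 : |Real.sqrt (1 - u ^ 2) - Real.sqrt (1 - v ^ 2)| ≤ h) :
    |u| - |v| ≤ 4 * h * (ρ + h) := by
  have eu : 0 ≤ 1 - u ^ 2 := by
    have := pow_le_one₀ (n := 2) (abs_nonneg u) hu1
    rw [sq_abs] at this
    linarith
  have ev : 0 ≤ 1 - v ^ 2 := by
    have := pow_le_one₀ (n := 2) (abs_nonneg v) hv1
    rw [sq_abs] at this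
    linarith
  have su := Real.sq_sqrt eu
  have sv := Real.sq_sqrt ev
  have nu := Real.sqrt_nonneg (1 - u ^ 2)
  have nv := Real.sqrt_nonneg (1 - v ^ 2)
  set p := Real.sqrt (1 - u ^ 2)
  set q := Real.sqrt (1 - v ^ 2)
  rw [← sq_abs u] at su
  rw [← sq_abs v] at sv
  set x := |u|
  set y := |v|
  have h1' := abs_le.1 h1
  have h2' := abs_le.1 h2
  have h3' := abs_le.1 h3
  by_contra hc
  push Not at hc
  have hpos : 0 ≤ 4 * h * (ρ + h) := by positivity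
  have hxy : 0 < x - y := lt_of_le_of_lt hpos hc
  have k1 : (x - y) * (x + y) = (q - p) * (q + p) := by nlinarith
  have k2 : (x - y) * (1 / 2) ≤ (x - y) * (x + y) :=
    mul_le_mul_of_nonneg_left (by linarith) hxy.le
  have k3 : (q - p) * (q + p) ≤ h * (2 * (ρ + h)) := by
    have k4 : (q - p) * (q + p) ≤ h * (q + p) :=
      mul_le_mul_of_nonneg_right (by linarith) (by linarith)
    have k5 : h * (q + p) ≤ h * (2 * (ρ + h)) :=
      mul_le_mul_of_nonneg_left (by linarith) hh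
    linarith
  linarith

end Err

open Err in
theorem err_bound (d : ℕ) (hd : 1 ≤ d) (c1 C2 C3 K : ℝ) (hc1 : 0 < c1) (hC2 : 0 ≤ C2)
    (hC3 : 0 ≤ C3) (hK : 0 ≤ K) : ∃ C : ℝ, 0 < C ∧
    ∀ (Ω : Type) (_ : MeasurableSpace Ω) (μ : Measure Ω) (_ : IsFiniteMeasure μ)
      (a : Ω → ℝ) (_ : Measurable a) (_ : ∀ x, |a x| ≤ 1)
      (_ : ∀ τ : ℝ, 1 / 2 ≤ τ → τ ≤ 1 →
        c1 * (Real.sqrt (1 - τ ^ 2)) ^ d ≤ μ.real {x | τ ≤ |a x|})
      (_ : ∀ τ δ : ℝ, 1 / 2 ≤ τ → τ ≤ 1 → 0 ≤ δ → δ ≤ 1 / 4 →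
        μ.real {x | 1 / 4 ≤ |a x| ∧ |Real.sqrt (1 - a x ^ 2) - Real.sqrt (1 - τ ^ 2)| ≤ δ}
          ≤ C2 * (Real.sqrt (1 - τ ^ 2) + δ) ^ (d - 1) * δ)
      (_ : ∀ τ δ : ℝ, 0 ≤ τ → τ ≤ 1 / 2 → 0 ≤ δ → δ ≤ 1 / 4 →
        μ.real {x | |(|a x|) - τ| ≤ δ} ≤ C3 * δ)
      (N : ℕ) (A : Fin N → Set Ω) (_ : ∀ i, MeasurableSet (A i))
      (_ : ∀ i j, i ≠ j → Disjoint (A i) (A j))
      (κ h : ℝ) (_ : 0 < κ) (_ : 0 < h) (_ : h ≤ 1 / 4) (_ : h ^ d ≤ K * κ)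
      (_ : ∀ i, μ.real (A i) = κ) (_ : κ * N = μ.real univ)
      (_ : ∀ i, ∀ x ∈ A i, ∀ y ∈ A i, |a x - a y| ≤ h ∧
        |Real.sqrt (1 - a x ^ 2) - Real.sqrt (1 - a y ^ 2)| ≤ h)
      (r : ℕ) (_ : 1 ≤ r) (τ : ℝ) (_ : 0 ≤ τ) (_ : τ ≤ 1)
      (_ : μ.real {x | τ ≤ |a x|} = r * κ),
      ∫ x in {x | τ ≤ |a x|}, |a x| ∂μ ≤
        ∑ i, (μ.real (A i ∩ {x | τ ≤ |a x|}) / κ) * |∫ x in A i, a x ∂μ|
          + C * h ^ 2 * (r * κ) := by
  classical
  set s0 : ℝ := Real.sqrt (1 - (1 / 2) ^ 2) with hs0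
  have hs0p : 0 < s0 := Real.sqrt_pos.2 (by norm_num)
  have hc1s : 0 < c1 * s0 ^ d := mul_pos hc1 (pow_pos hs0p d)
  have hT1 : 0 ≤ 2 * C3 / (c1 * s0 ^ d) := div_nonneg (by linarith) hc1s.le
  have hT2 : 0 ≤ 4 * C2 * 2 ^ d * (1 / c1 + K) := by positivity
  refine ⟨2 * C3 / (c1 * s0 ^ d) + 4 * C2 * 2 ^ d * (1 / c1 + K) + 1, by linarith, ?_⟩
  intro Ω _ μ _ a ha h1 H1 H2 H3 N A hA hdis κ h hκ hh hh4 hhK hμ hN hosc r hr τ hτ0 hτ1 hDr
  set D : Set Ω := {x | τ ≤ |a x|} with hDdef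
  have hD : MeasurableSet D := measurableSet_le measurable_const ha.abs
  set sg : Fin N → Prop := fun i => (∀ x ∈ A i, 0 ≤ a x) ∨ ∀ x ∈ A i, a x ≤ 0 with hsg
  set B : Finset (Fin N) := Finset.univ.filter fun i => (A i ∩ D).Nonempty ∧ ¬ A i ⊆ D ∧ sg i with hB
  set S : Finset (Fin N) := Finset.univ.filter fun i => (A i ∩ D).Nonempty ∧ ¬ sg i with hS
  have hsmall : ∀ i, ¬ sg i → ∀ z ∈ A i, |a z| ≤ h := fun i hi =>
    small_of_sign (fun x hx y hy => (hosc i x hx y hy).1) hi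
  have hrκ : κ ≤ r * κ := by
    have : (1 : ℝ) ≤ r := by exact_mod_cast hr
    nlinarith
  have hrκ0 : 0 < r * κ := lt_of_lt_of_le hκ hrκ
  have main : ∀ ω : ℝ, 0 ≤ ω → (∀ i ∈ B, ∀ x ∈ A i, ∀ y ∈ A i, |a x| - |a y| ≤ ω) →
      ∫ x in D, |a x| ∂μ ≤ ∑ i, (μ.real (A i ∩ D) / κ) * |∫ x in A i, a x ∂μ| +
      ((B.card : ℝ) * κ * ω + (S.card : ℝ) * κ * h) := by
    intro ω hω hBω
    refine cells_sum hA hdis hμ hN hD ha h1 B S ω h fun i => ?_
    have n1 : 0 ≤ (if i ∈ B then κ * ω else 0) := by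
      split_ifs
      · positivity
      · exact le_rfl
    have n2 : 0 ≤ (if i ∈ S then κ * h else 0) := by
      split_ifs
      · positivity
      · exact le_rfl
    by_cases hne : (A i ∩ D).Nonempty
    · by_cases hsi : sg i
      · by_cases hsub : A i ⊆ D
        · have := cell_sub (hA i) hκ (hμ i) hsub hsi
          linarith
        · have hi : i ∈ B := Finset.mem_filter.2 ⟨Finset.mem_univ i, hne, hsub, hsi⟩
          have := cell_osc hD (hA i) ha h1 hκ (hμ i) hω (hBω i hi) hsi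
          rw [if_pos hi]
          linarith
      · have hi : i ∈ S := Finset.mem_filter.2 ⟨Finset.mem_univ i, hne, hsi⟩
        have := cell_small hD (hA i) ha h1 hκ (hμ i) hh.le (hsmall i hsi)
        rw [if_pos hi]
        linarith
    · rw [not_nonempty_iff_eq_empty] at hne
      have := cell_empty (μ := μ) (a := a) hκ hne
      linarith
  rcases le_or_gt τ (1 / 2) with hτ | hτ
  · -- small threshold
    have hBX : ∀ i ∈ B, A i ⊆ {x | |(|a x|) - τ| ≤ h} := by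
      intro i hi z hz
      obtain ⟨-, ⟨x, hx, hxD⟩, hsub, -⟩ := Finset.mem_filter.1 hi
      obtain ⟨y, hy, hyD⟩ := not_subset.1 hsub
      have e1 := (hosc i z hz x hx).1
      have e2 := (hosc i z hz y hy).1
      have e3 := abs_le.1 ((abs_abs_sub_abs_le_abs_sub (a z) (a x)).trans e1)
      have e4 := abs_le.1 ((abs_abs_sub_abs_le_abs_sub (a z) (a y)).trans e2)
      have e5 : τ ≤ |a x| := hxD
      have e6 : |a y| < τ := not_le.1 hyD
      show |(|a z|) - τ| ≤ h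
      rw [abs_le]
      constructor <;> linarith
    have hSX : ∀ i ∈ S, A i ⊆ {x | |(|a x|) - 0| ≤ h} := by
      intro i hi z hz
      obtain ⟨-, -, hsi⟩ := Finset.mem_filter.1 hi
      show |(|a z|) - 0| ≤ h
      rw [sub_zero, abs_abs]
      exact hsmall i hsi z hz
    have b1 := (count hA hdis hμ B hBX).trans (H3 τ h hτ0 hτ hh.le hh4)
    have b2 := (count hA hdis hμ S hSX).trans (H3 0 h le_rfl (by norm_num) hh.le hh4)
    have b3 := main h hh.le fun i _ x hx y hy =>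
      ((le_abs_self _).trans (abs_abs_sub_abs_le_abs_sub (a x) (a y))).trans (hosc i x hx y hy).1
    have b4 : c1 * s0 ^ d ≤ r * κ := by
      rw [← hDr]
      refine (H1 (1 / 2) le_rfl (by norm_num)).trans (measureReal_mono ?_)
      intro x hx
      exact hτ.trans hx
    have b5 : (B.card : ℝ) * κ * h + (S.card : ℝ) * κ * h ≤ 2 * C3 * h ^ 2 := by
      have := mul_le_mul_of_nonneg_right b1 hh.le
      have := mul_le_mul_of_nonneg_right b2 hh.le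
      nlinarith
    have b6 : 2 * C3 * h ^ 2 ≤ 2 * C3 / (c1 * s0 ^ d) * h ^ 2 * (r * κ) := by
      have e : 2 * C3 * h ^ 2 = 2 * C3 / (c1 * s0 ^ d) * h ^ 2 * (c1 * s0 ^ d) := by
        field_simp
      rw [e]
      exact mul_le_mul_of_nonneg_left b4 (by positivity)
    have b7 : 0 ≤ (4 * C2 * 2 ^ d * (1 / c1 + K) + 1) * h ^ 2 * (r * κ) := by positivity
    have b8 : (2 * C3 / (c1 * s0 ^ d) + 4 * C2 * 2 ^ d * (1 / c1 + K) + 1) * h ^ 2 * (r * κ) =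
      2 * C3 / (c1 * s0 ^ d) * h ^ 2 * (r * κ) +
        (4 * C2 * 2 ^ d * (1 / c1 + K) + 1) * h ^ 2 * (r * κ) := by ring
    rw [b8]
    linarith
  · -- large threshold
    set ρ := Real.sqrt (1 - τ ^ 2) with hρ
    have hρ0 : 0 ≤ ρ := Real.sqrt_nonneg _
    have hS0 : S = ∅ := by
      rw [Finset.eq_empty_iff_forall_notMem]
      intro i hi
      obtain ⟨-, ⟨x, hx, hxD⟩, hsi⟩ := Finset.mem_filter.1 hi
      have e1 := hsmall i hsi x hx
      have e2 : τ ≤ |a x| := hxD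
      linarith
    have hge : ∀ i ∈ B, ∀ z ∈ A i, 1 / 4 ≤ |a z| ∧ |Real.sqrt (1 - a z ^ 2) - ρ| ≤ h := by
      intro i hi z hz
      obtain ⟨-, ⟨x, hx, hxD⟩, hsub, -⟩ := Finset.mem_filter.1 hi
      obtain ⟨y, hy, hyD⟩ := not_subset.1 hsub
      have e5 : τ ≤ |a x| := hxD
      have e6 : |a y| < τ := not_le.1 hyD
      have e1 := (hosc i z hz x hx).1
      have e3 := abs_le.1 ((abs_abs_sub_abs_le_abs_sub (a z) (a x)).trans e1)
      refine ⟨by linarith, ?_⟩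
      have q1 := abs_le.1 (hosc i z hz x hx).2
      have q2 := abs_le.1 (hosc i z hz y hy).2
      have r1 : Real.sqrt (1 - a x ^ 2) ≤ ρ := by
        refine Real.sqrt_le_sqrt ?_
        have : τ ^ 2 ≤ |a x| ^ 2 := pow_le_pow_left₀ hτ0 e5 2
        rw [sq_abs] at this
        linarith
      have r2 : ρ ≤ Real.sqrt (1 - a y ^ 2) := by
        refine Real.sqrt_le_sqrt ?_
        have : |a y| ^ 2 ≤ τ ^ 2 := pow_le_pow_left₀ (abs_nonneg _) e6.le 2
        rw [sq_abs] at this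
        linarith
      rw [abs_le]
      constructor <;> linarith
    have hBX : ∀ i ∈ B, A i ⊆ {x | 1 / 4 ≤ |a x| ∧ |Real.sqrt (1 - a x ^ 2) - ρ| ≤ h} :=
      fun i hi z hz => hge i hi z hz
    have b1 := (count hA hdis hμ B hBX).trans (H2 τ h hτ.le hτ1 hh.le hh4)
    have b3 := main (4 * h * (ρ + h)) (by positivity) fun i hi x hx y hy =>
      osc_of_q (hge i hi x hx).1 (hge i hi y hy).1 (h1 x) (h1 y) hρ0 hh.le (hge i hi x hx).2
        (hge i hi y hy).2 (hosc i x hx y hy).2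
    have b4 : c1 * ρ ^ d ≤ r * κ := by
      rw [← hDr]
      exact H1 τ hτ.le hτ1
    rw [hS0, Finset.card_empty, Nat.cast_zero, zero_mul, zero_mul, add_zero] at b3
    have hpow : (ρ + h) ^ (d - 1) * (ρ + h) = (ρ + h) ^ d := by
      rw [← pow_succ, Nat.sub_add_cancel hd]
    have b5 : (B.card : ℝ) * κ * (4 * h * (ρ + h)) ≤ 4 * C2 * (ρ + h) ^ d * h ^ 2 := by
      have := mul_le_mul_of_nonneg_right b1 (show 0 ≤ 4 * h * (ρ + h) by positivity)
      refine this.trans (le_of_eq ?_)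
      rw [← hpow]
      ring
    have b6 : (ρ + h) ^ d ≤ 2 ^ d * (1 / c1 + K) * (r * κ) := by
      have e1 := add_pow_le hρ0 hh.le d
      have e2 : (2 : ℝ) ^ (d - 1) ≤ 2 ^ d := pow_le_pow_right₀ (by norm_num) (Nat.sub_le d 1)
      have e3 : ρ ^ d ≤ 1 / c1 * (r * κ) := by
        rw [one_div, inv_mul_eq_div, le_div_iff₀ hc1, mul_comm]
        exact b4
      have e4 : h ^ d ≤ K * (r * κ) :=
        hhK.trans (mul_le_mul_of_nonneg_left hrκ hK)
      have e5 : ρ ^ d + h ^ d ≤ (1 / c1 + K) * (r * κ) := by linarith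
      calc (ρ + h) ^ d ≤ 2 ^ (d - 1) * (ρ ^ d + h ^ d) := e1
        _ ≤ 2 ^ d * (ρ ^ d + h ^ d) := mul_le_mul_of_nonneg_right e2 (by positivity)
        _ ≤ 2 ^ d * ((1 / c1 + K) * (r * κ)) := mul_le_mul_of_nonneg_left e5 (by positivity)
        _ = _ := by ring
    have b7 : 4 * C2 * (ρ + h) ^ d * h ^ 2 ≤ 4 * C2 * 2 ^ d * (1 / c1 + K) * h ^ 2 * (r * κ) := by
      have := mul_le_mul_of_nonneg_left b6 (show 0 ≤ 4 * C2 * h ^ 2 by positivity)
      nlinarith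
    have b8 : 0 ≤ (2 * C3 / (c1 * s0 ^ d) + 1) * h ^ 2 * (r * κ) := by positivity
    have b9 : (2 * C3 / (c1 * s0 ^ d) + 4 * C2 * 2 ^ d * (1 / c1 + K) + 1) * h ^ 2 * (r * κ) =
      4 * C2 * 2 ^ d * (1 / c1 + K) * h ^ 2 * (r * κ) +
        (2 * C3 / (c1 * s0 ^ d) + 1) * h ^ 2 * (r * κ) := by ring
    rw [b9]
    linarith

end Pool.Agent.Helper66.DS
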