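import Mathlib
import Pool.Agent.Helper66.DS.Defs

/-! Module LVol of MP_d684b1_an: volume of a belt. -/

set_option autoImplicit false

namespace Pool.Agent.Helper66.DS

open MeasureTheory Set

namespace LVol

theorem psi_diff {g1 g2 : ℝ} (h0 : 0 ≤ g1) (h12 : g1 ≤ g2) (h2 : g2 ≤ 3 / 4) :
    g2 / Real.sqrt (1 - g2 ^ 2) - g1 / Real.sqrt (1 - g1 ^ 2) ≤ 17 / 2 * (g2 - g1) := by
  have e1 : 7 / 16 ≤ 1 - g1 ^ 2 := by nlinarith
  have e2 : 7 / 16 ≤ 1 - g2 ^ 2 := by nlinarith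
  have s1 := Real.sq_sqrt (show 0 ≤ 1 - g1 ^ 2 by linarith)
  have s2 := Real.sq_sqrt (show 0 ≤ 1 - g2 ^ 2 by linarith)
  have n1 : 1 / 2 ≤ Real.sqrt (1 - g1 ^ 2) := Real.le_sqrt_of_sq_le (by linarith)
  have n2 : 1 / 2 ≤ Real.sqrt (1 - g2 ^ 2) := Real.le_sqrt_of_sq_le (by linarith)
  have n3 : Real.sqrt (1 - g2 ^ 2) ≤ Real.sqrt (1 - g1 ^ 2) := Real.sqrt_le_sqrt (by nlinarith)
  have n4 : Real.sqrt (1 - g1 ^ 2) ≤ 1 := Real.sqrt_le_one.2 (by nlinarith)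
  set p := Real.sqrt (1 - g1 ^ 2)
  set q := Real.sqrt (1 - g2 ^ 2)
  have hp : 0 < p := by linarith
  have hq : 0 < q := by linarith
  have k1 : (p - q) * (p + q) = (g2 - g1) * (g2 + g1) := by nlinarith
  have k2 : p - q ≤ 3 / 2 * (g2 - g1) := by
    have : (p - q) * 1 ≤ (p - q) * (p + q) :=
      mul_le_mul_of_nonneg_left (by linarith) (by linarith)
    have : (g2 - g1) * (g2 + g1) ≤ (g2 - g1) * (3 / 2) :=
      mul_le_mul_of_nonneg_left (by linarith) (by linarith)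
    linarith
  have k3 : g2 * p - g1 * q ≤ 17 / 8 * (g2 - g1) := by
    have : (g2 - g1) * p ≤ (g2 - g1) * 1 := mul_le_mul_of_nonneg_left n4 (by linarith)
    have : g1 * (p - q) ≤ 3 / 4 * (p - q) := mul_le_mul_of_nonneg_right (by linarith) (by linarith)
    nlinarith
  have k4 : 1 / 4 ≤ p * q := by nlinarith
  rw [div_sub_div _ _ hq.ne' hp.ne', div_le_iff₀ (mul_pos hq hp)]
  have k5 : 17 / 2 * (g2 - g1) * (1 / 4) ≤ 17 / 2 * (g2 - g1) * (q * p) :=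
    mul_le_mul_of_nonneg_left (by linarith) (by linarith)
  nlinarith

/-- the norm of the last `d` coordinates -/
noncomputable def rr {d : ℕ} (y : Fin d → ℝ) : ℝ := Real.sqrt (∑ i, y i ^ 2)

/-- the region in product coordinates -/
def reg (d : ℕ) (T1 T2 : ℝ) : Set (ℝ × (Fin d → ℝ)) :=
  {p | rr p.2 ≤ 1 ∧ T1 * rr p.2 ≤ |p.1| ∧ |p.1| ≤ T2 * rr p.2}

theorem meas_reg (d : ℕ) (T1 T2 : ℝ) : MeasurableSet (reg d T1 T2) := by
  have h1 : Continuous fun p : ℝ × (Fin d → ℝ) => rr p.2 := by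
    unfold rr
    fun_prop
  have h2 : Continuous fun p : ℝ × (Fin d → ℝ) => |p.1| := by fun_prop
  exact (measurableSet_le h1.measurable measurable_const).inter
    ((measurableSet_le (h1.measurable.const_mul T1) h2.measurable).inter
      (measurableSet_le h2.measurable (h1.measurable.const_mul T2)))

theorem vol_slice {T1 T2 ρ : ℝ} (h12 : T1 ≤ T2) (hρ0 : 0 ≤ ρ) (hρ1 : ρ ≤ 1) :
    volume {u : ℝ | T1 * ρ ≤ |u| ∧ |u| ≤ T2 * ρ} ≤ 2 * ENNReal.ofReal (T2 - T1) := by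
  have h1 : {u : ℝ | T1 * ρ ≤ |u| ∧ |u| ≤ T2 * ρ} ⊆
      Icc (T1 * ρ) (T2 * ρ) ∪ Icc (-(T2 * ρ)) (-(T1 * ρ)) := by
    intro u hu
    rcases le_total 0 u with h | h
    · rw [mem_ofPred_eq, abs_of_nonneg h] at hu
      exact Or.inl ⟨hu.1, hu.2⟩
    · rw [mem_ofPred_eq, abs_of_nonpos h] at hu
      exact Or.inr ⟨by linarith [hu.2], by linarith [hu.1]⟩
  refine (measure_mono h1).trans ((measure_union_le _ _).trans ?_)
  rw [Real.volume_Icc, Real.volume_Icc, two_mul]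
  have h2 : T2 * ρ - T1 * ρ ≤ T2 - T1 := by nlinarith
  exact add_le_add (ENNReal.ofReal_le_ofReal h2) (ENNReal.ofReal_le_ofReal (by linarith))

theorem vol_reg (d : ℕ) {T1 T2 : ℝ} (h12 : T1 ≤ T2) :
    volume (reg d T1 T2) ≤ ENNReal.ofReal (2 ^ (d + 1) * (T2 - T1)) := by
  rw [Measure.volume_eq_prod, Measure.prod_apply_symm (meas_reg d T1 T2)]
  have h1 : ∀ y : Fin d → ℝ, volume ((fun x : ℝ => (x, y)) ⁻¹' reg d T1 T2) ≤
      (Icc (fun _ => (-1 : ℝ)) (fun _ => 1) : Set (Fin d → ℝ)).indicator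
        (fun _ => 2 * ENNReal.ofReal (T2 - T1)) y := by
    intro y
    by_cases hy : rr y ≤ 1
    · have hmem : y ∈ (Icc (fun _ => (-1 : ℝ)) (fun _ => 1) : Set (Fin d → ℝ)) := by
        have h3 : ∀ i, |y i| ≤ 1 := by
          intro i
          have h4 : y i ^ 2 ≤ ∑ i, y i ^ 2 :=
            Finset.single_le_sum (f := fun i => y i ^ 2) (fun i _ => sq_nonneg _)
              (Finset.mem_univ i)
          have h5 : rr y ^ 2 = ∑ i, y i ^ 2 := Real.sq_sqrt (Finset.sum_nonneg fun i _ => sq_nonneg _)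
          have h6 : 0 ≤ rr y := Real.sqrt_nonneg _
          rw [← sq_le_one_iff_abs_le_one]
          nlinarith
        exact ⟨fun i => (abs_le.1 (h3 i)).1, fun i => (abs_le.1 (h3 i)).2⟩
      rw [indicator_of_mem hmem]
      refine (measure_mono ?_).trans (vol_slice h12 (Real.sqrt_nonneg _) hy)
      intro u hu
      exact hu.2
    · have h3 : (fun x : ℝ => (x, y)) ⁻¹' reg d T1 T2 = ∅ := by
        ext u
        simp only [mem_preimage, mem_empty_iff_false, iff_false]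
        exact fun h => hy h.1
      rw [h3, measure_empty]
      exact zero_le
  refine (lintegral_mono h1).trans ?_
  rw [lintegral_indicator_const measurableSet_Icc, Real.volume_Icc_pi]
  have h2 : ∏ _i : Fin d, ENNReal.ofReal (1 - (-1 : ℝ)) = ENNReal.ofReal (2 ^ d) := by
    rw [Finset.prod_const, Finset.card_univ, Fintype.card_fin, ← ENNReal.ofReal_pow (by norm_num)]
    norm_num
  rw [h2]
  have h3 : (2 : ENNReal) = ENNReal.ofReal 2 := by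
    rw [ENNReal.ofReal_ofNat]
  rw [h3, ← ENNReal.ofReal_mul (by norm_num), ← ENNReal.ofReal_mul (by nlinarith)]
  refine ENNReal.ofReal_le_ofReal (le_of_eq ?_)
  ring

/-- splitting off the first coordinate -/
theorem mp_split (d : ℕ) : MeasurePreserving
    (fun x : E d => ((x 0, fun i => x i.succ) : ℝ × (Fin d → ℝ))) :=
  (volume_preserving_piFinSuccAbove (fun _ : Fin (d + 1) => ℝ) 0).comp
    (PiLp.volume_preserving_ofLp (Fin (d + 1)))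

/-- the first unit vector -/
noncomputable def e0 (d : ℕ) : E d := EuclideanSpace.single 0 1

theorem aa_e0 {d : ℕ} (x : E d) : aa (e0 d) x = ‖x‖⁻¹ * x 0 := by
  rw [aa, e0, EuclideanSpace.inner_single_left, dir]
  simp

theorem norm_sq_split {d : ℕ} (x : E d) : ‖x‖ ^ 2 = x 0 ^ 2 + ∑ i : Fin d, x i.succ ^ 2 := by
  rw [EuclideanSpace.real_norm_sq_eq, Fin.sum_univ_succ]

theorem sub_reg {d : ℕ} {x : E d} (hx : x ∈ ball1 d) (hx0 : x ≠ 0) {g1 g2 : ℝ} (h1 : 0 ≤ g1)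
    (h2 : g2 < 1) (hg1 : g1 ≤ |aa (e0 d) x|) (hg2 : |aa (e0 d) x| ≤ g2) :
    ((x 0, fun i => x i.succ) : ℝ × (Fin d → ℝ)) ∈
      reg d (g1 / Real.sqrt (1 - g1 ^ 2)) (g2 / Real.sqrt (1 - g2 ^ 2)) := by
  have hn : 0 < ‖x‖ := norm_pos_iff.2 hx0
  have hn1 : ‖x‖ < 1 := by
    rw [ball1, mem_ball_zero_iff] at hx
    exact hx
  rw [aa_e0, abs_mul, abs_inv, abs_norm] at hg1 hg2
  set g := ‖x‖⁻¹ * |x 0| with hg
  have hu : |x 0| = g * ‖x‖ := by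
    rw [hg]
    field_simp
  have hg0 : 0 ≤ g := by positivity
  have hg' : g < 1 := lt_of_le_of_lt hg2 h2
  have hsum : ∑ i : Fin d, x i.succ ^ 2 = ‖x‖ ^ 2 * (1 - g ^ 2) := by
    have h3 := norm_sq_split x
    have h4 : x 0 ^ 2 = (g * ‖x‖) ^ 2 := by rw [← hu, sq_abs]
    nlinarith
  have h1g : 0 ≤ 1 - g ^ 2 := by nlinarith
  have hρ : rr (fun i : Fin d => x i.succ) = ‖x‖ * Real.sqrt (1 - g ^ 2) := by
    rw [rr, hsum, Real.sqrt_mul (by positivity), Real.sqrt_sq hn.le]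
  have hs1 : Real.sqrt (1 - g ^ 2) ≤ 1 := Real.sqrt_le_one.2 (by nlinarith)
  have hs0 := Real.sqrt_nonneg (1 - g ^ 2)
  have hg11 : g1 < 1 := lt_of_le_of_lt hg1 hg'
  have hg20 : 0 ≤ g2 := hg0.trans hg2
  have p1 : 0 < Real.sqrt (1 - g1 ^ 2) := Real.sqrt_pos.2 (by nlinarith)
  have p2 : 0 < Real.sqrt (1 - g2 ^ 2) := Real.sqrt_pos.2 (by nlinarith)
  have m1 : Real.sqrt (1 - g ^ 2) ≤ Real.sqrt (1 - g1 ^ 2) := Real.sqrt_le_sqrt (by nlinarith)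
  have m2 : Real.sqrt (1 - g2 ^ 2) ≤ Real.sqrt (1 - g ^ 2) := Real.sqrt_le_sqrt (by nlinarith)
  refine ⟨?_, ?_, ?_⟩
  · show rr (fun i : Fin d => x i.succ) ≤ 1
    rw [hρ]
    nlinarith
  · show g1 / Real.sqrt (1 - g1 ^ 2) * rr (fun i : Fin d => x i.succ) ≤ |x 0|
    rw [hρ, hu, div_mul_eq_mul_div, div_le_iff₀ p1]
    have a1 : g1 * (‖x‖ * Real.sqrt (1 - g ^ 2)) ≤ g * (‖x‖ * Real.sqrt (1 - g ^ 2)) :=
      mul_le_mul_of_nonneg_right hg1 (by positivity)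
    have a2 : g * ‖x‖ * Real.sqrt (1 - g ^ 2) ≤ g * ‖x‖ * Real.sqrt (1 - g1 ^ 2) :=
      mul_le_mul_of_nonneg_left m1 (by positivity)
    linarith
  · show |x 0| ≤ g2 / Real.sqrt (1 - g2 ^ 2) * rr (fun i : Fin d => x i.succ)
    rw [hρ, hu, div_mul_eq_mul_div, le_div_iff₀ p2]
    have a1 : g * (‖x‖ * Real.sqrt (1 - g ^ 2)) ≤ g2 * (‖x‖ * Real.sqrt (1 - g ^ 2)) :=
      mul_le_mul_of_nonneg_right hg2 (by positivity)
    have a2 : g * ‖x‖ * Real.sqrt (1 - g2 ^ 2) ≤ g * ‖x‖ * Real.sqrt (1 - g ^ 2) :=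
      mul_le_mul_of_nonneg_left m2 (by positivity)
    linarith

theorem belt_e0 (d : ℕ) {τ δ : ℝ} (hτ0 : 0 ≤ τ) (hτ : τ ≤ 1 / 2) (hδ0 : 0 ≤ δ)
    (hδ : δ ≤ 1 / 4) :
    volume {x | x ∈ ball1 d ∧ |(|aa (e0 d) x|) - τ| ≤ δ} ≤
      ENNReal.ofReal (2 ^ (d + 1) * 17 * δ) := by
  set g1 := max (τ - δ) 0 with hg1
  set g2 := τ + δ with hg2
  have h1 : 0 ≤ g1 := le_max_right _ _
  have h12 : g1 ≤ g2 := max_le (by linarith) (by linarith)
  have h2 : g2 ≤ 3 / 4 := by linarith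
  have hsub : {x | x ∈ ball1 d ∧ |(|aa (e0 d) x|) - τ| ≤ δ} ⊆ {(0 : E d)} ∪
      (fun x : E d => ((x 0, fun i => x i.succ) : ℝ × (Fin d → ℝ))) ⁻¹'
        reg d (g1 / Real.sqrt (1 - g1 ^ 2)) (g2 / Real.sqrt (1 - g2 ^ 2)) := by
    rintro x ⟨hx, hx'⟩
    by_cases hx0 : x = 0
    · exact Or.inl hx0
    · right
      have h3 := abs_le.1 hx'
      exact sub_reg hx hx0 h1 (by linarith) (max_le (by linarith) (abs_nonneg _)) (by linarith)
  have h3 := psi_diff h1 h12 h2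
  have hT : g1 / Real.sqrt (1 - g1 ^ 2) ≤ g2 / Real.sqrt (1 - g2 ^ 2) := by
    have p2 : 0 < Real.sqrt (1 - g2 ^ 2) := Real.sqrt_pos.2 (by nlinarith)
    have m1 : Real.sqrt (1 - g2 ^ 2) ≤ Real.sqrt (1 - g1 ^ 2) := Real.sqrt_le_sqrt (by nlinarith)
    exact div_le_div₀ (h1.trans h12) h12 p2 m1
  refine (measure_mono hsub).trans ((measure_union_le _ _).trans ?_)
  have h0 : volume {(0 : E d)} = 0 := measure_singleton 0
  rw [h0, zero_add, (mp_split d).measure_preimage (meas_reg d _ _).nullMeasurableSet]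
  refine (vol_reg d hT).trans (ENNReal.ofReal_le_ofReal ?_)
  have h4 : g2 - g1 ≤ 2 * δ := by
    have := le_max_left (τ - δ) 0
    linarith
  have h5 : (0 : ℝ) < 2 ^ (d + 1) := by positivity
  rw [mul_assoc]
  exact mul_le_mul_of_nonneg_left (by linarith) h5.le

theorem dir_map {d : ℕ} (R : E d ≃ₗᵢ[ℝ] E d) (x : E d) : dir (R x) = R (dir x) := by
  rw [dir, dir, R.norm_map, map_smul]

theorem aa_map {d : ℕ} (R : E d ≃ₗᵢ[ℝ] E d) (ξ x : E d) : aa (R ξ) (R x) = aa ξ x := by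
  rw [aa, aa, dir_map, R.inner_map_map]

theorem exists_rot {d : ℕ} {ξ : E d} (hξ : ‖ξ‖ = 1) : ∃ R : E d ≃ₗᵢ[ℝ] E d, R ξ = e0 d := by
  refine ⟨(Submodule.span ℝ {ξ - e0 d})ᗮ.reflection, ?_⟩
  refine Submodule.reflection_sub ?_
  rw [hξ, e0]
  simp

end LVol

open LVol in
theorem belt_upper (d : ℕ) (hd : 1 ≤ d) : ∃ C : ℝ, 0 < C ∧ ∀ ξ : E d, ‖ξ‖ = 1 →
    ∀ τ δ : ℝ, 0 ≤ τ → τ ≤ 1 / 2 → 0 ≤ δ → δ ≤ 1 / 4 →
      volume.real {x | x ∈ ball1 d ∧ |(|aa ξ x|) - τ| ≤ δ} ≤ C * δ := by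
  refine ⟨2 ^ (d + 1) * 17, by positivity, ?_⟩
  intro ξ hξ τ δ hτ0 hτ hδ0 hδ
  obtain ⟨R, hR⟩ := exists_rot hξ
  have h1 : {x | x ∈ ball1 d ∧ |(|aa ξ x|) - τ| ≤ δ} =
      R ⁻¹' {x | x ∈ ball1 d ∧ |(|aa (e0 d) x|) - τ| ≤ δ} := by
    ext x
    simp only [mem_preimage, mem_ofPred_eq]
    rw [← hR, aa_map, ball1, mem_ball_zero_iff, mem_ball_zero_iff, R.norm_map]
  have h2 : volume {x | x ∈ ball1 d ∧ |(|aa ξ x|) - τ| ≤ δ} =
      volume {x | x ∈ ball1 d ∧ |(|aa (e0 d) x|) - τ| ≤ δ} := by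
    rw [h1]
    exact R.measurePreserving.measure_preimage_emb R.toHomeomorph.measurableEmbedding _
  rw [measureReal_def, h2]
  exact ENNReal.toReal_le_of_le_ofReal (by positivity) (belt_e0 d hτ0 hτ hδ0 hδ)

end Pool.Agent.Helper66.DS
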